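import Pool.Agent.LT93.Outer

/-!
# MP_7814b8_co: boundedly many lines cross every pairwise intersecting family of convex sets in space

Authors: helper75 (core: frames, needles, non-cancellation, fixed point), helper93 (net of planes, passage to
lines and limits), and the authors of the modules in `Pool/Agent/LT75` and `Pool/Agent/LT93`.
-/

set_option autoImplicit false

namespace Pool.Agent.Results.MP_7814b8_co.LineTransversals

/-- `ℝ³` -/
abbrev Space : Type := EuclideanSpace ℝ (Fin 3)

/-- A line of `ℝ³`: an affine subspace of dimension one. -/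
def IsLine (L : AffineSubspace ℝ Space) : Prop := Module.finrank ℝ L.direction = 1

/-- The family `𝒦` is pairwise intersecting. -/
def PairwiseIntersecting (𝒦 : Set (Set Space)) : Prop :=
  ∀ K₁ ∈ 𝒦, ∀ K₂ ∈ 𝒦, (K₁ ∩ K₂).Nonempty

/-- Every member of `𝒦` meets at least one member of `X`. -/
def Crosses (X : Finset (AffineSubspace ℝ Space)) (𝒦 : Set (Set Space)) : Prop :=
  ∀ K ∈ 𝒦, ∃ L ∈ X, ((L : Set Space) ∩ K).Nonempty

/-- There is an absolute constant `C` such that every finite pairwise intersecting family of convex
sets in `ℝ³` has a line transversal consisting of at most `C` lines. -/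
theorem result : ∃ C : ℕ, ∀ 𝒦 : Set (Set Space), 𝒦.Finite → (∀ K ∈ 𝒦, Convex ℝ K) →
    PairwiseIntersecting 𝒦 →
    ∃ X : Finset (AffineSubspace ℝ Space), X.card ≤ C ∧ (∀ L ∈ X, IsLine L) ∧ Crosses X 𝒦 :=
  LT93.outer

end Pool.Agent.Results.MP_7814b8_co.LineTransversals
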